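import Mathlib
import Pool.Agent.Q4.Opt.GcdO

set_option autoImplicit false

/-!
# Lang's inequality for the rational numbers at which two polynomials have a large common divisor
-/

namespace Pool.Agent.Results.MP_c307ca_nt.CommonDivisors

open MvPolynomial

/-- the point `(q, p)`; the variable `none` is the one of `q`, the variable `some ()` the one
of `p` -/
def point (p : ℤ) (q : ℕ) : Option Unit → ℤ := fun o => o.elim (q : ℤ) (fun _ => p)

/-- Let `ξ` be a real algebraic number of degree at least `3`, `F` and `G` nonzero polynomials in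
two variables over `ℤ` without common factor over `ℚ`, `ε > 0` and `S` a finite set of primes.
There are `η > 0` and `N` such that all integers `q ≥ N` and `p`, for which `F(q, p)` and `G(q, p)`
have a common divisor `D ≥ q ^ ε`, satisfy `|ξ - p / q| > q ^ (η - 2)`, and more generally
`b |ξ q - p| > q ^ η` for every factorisation `q = a b` with `a` composed of primes of `S`. -/
theorem result (ξ : ℝ) (halg : IsAlgebraic ℚ ξ) (hdeg : 3 ≤ (minpoly ℚ ξ).natDegree)
    (S : Finset ℕ) (F G : MvPolynomial (Option Unit) ℤ) (hF : F ≠ 0) (hG : G ≠ 0)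
    (hFG : IsRelPrime (map (Int.castRingHom ℚ) F) (map (Int.castRingHom ℚ) G))
    (ε : ℝ) (hε : 0 < ε) :
    ∃ (η : ℝ) (N : ℕ), 0 < η ∧ ∀ q ≥ N, ∀ (p : ℤ) (D : ℕ),
      (D : ℤ) ∣ eval (point p q) F → (D : ℤ) ∣ eval (point p q) G → (q : ℝ) ^ ε ≤ D →
      (q : ℝ) ^ (η - 2) < |ξ - p / q| ∧
        ∀ a b : ℕ, q = a * b → a.primeFactors ⊆ S → (q : ℝ) ^ η < b * |ξ * q - p| := by
  obtain ⟨η, N, hη, h⟩ := Pool.Agent.Q4.Opt.gcdO (S.filter Nat.Prime)
    (fun p hp => (Finset.mem_filter.1 hp).2) (fun _ => ξ) halg hdeg F G hF hG hFG hε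
  refine ⟨η, N + 1, hη, fun q hq p D h1 h2 h3 => ?_⟩
  have hmain : ∀ a b : ℕ, q = a * b → a.primeFactors ⊆ S → (q : ℝ) ^ η < b * |ξ * q - p| := by
    intro a b hab ha
    by_contra hcon
    exact absurd (h q (by omega) (fun _ => p) ⟨a, b, hab, fun r hr => Finset.mem_filter.2
      ⟨ha hr, Nat.prime_of_mem_primeFactors hr⟩, not_lt.1 hcon⟩ D h1 h2) (not_lt.2 h3)
  refine ⟨?_, hmain⟩
  have h4 := hmain 1 q (one_mul q).symm (by simp)
  have hq0 : (0 : ℝ) < q := by exact_mod_cast (by omega : 0 < q)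
  have h5 : |ξ * q - p| = |ξ - p / q| * q := by
    rw [← abs_of_pos hq0, ← abs_mul, abs_of_pos hq0]
    congr 1
    field_simp
  have h6 : (q : ℝ) ^ η = (q : ℝ) ^ (η - 2) * (q * q) := by
    rw [Real.rpow_sub hq0, Real.rpow_two]
    field_simp
  rw [h5, h6] at h4
  have h7 : (q : ℝ) ^ (η - 2) * (q * q) < |ξ - p / q| * (q * q) := by linarith
  exact lt_of_mul_lt_mul_right h7 (by positivity)

end Pool.Agent.Results.MP_c307ca_nt.CommonDivisors
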