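import Mathlib
import Pool.Agent.Q4.Opt.Few

set_option autoImplicit false

/-!
# Lang's inequality for the rational numbers at which a polynomial is a sum of few near units
-/

namespace Pool.Agent.Results.MP_c307ca_nt.FewDigits

open MvPolynomial

/-- the point `(q, p)`; the variable `none` is the one of `q`, the variable `some ()` the one
of `p` -/
def point (p : ℤ) (q : ℕ) : Option Unit → ℤ := fun o => o.elim (q : ℤ) (fun _ => p)

/-- the `S`-part of an integer -/
def sPart (S : Finset ℕ) (z : ℤ) : ℕ := ∏ p ∈ S, p ^ (z.natAbs.factorization p)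

/-- Let `ξ` be a real algebraic number of degree at least `3`, `F` a nonconstant polynomial in two
variables over `ℤ`, `S` a finite set of primes and `k`, `K` integers. There are `η > 0` and `N` such
that all integers `q ≥ N` and `p`, for which `F(q, p)` is a sum of `k` integers `v` of absolute value
at most `q ^ K` whose part prime to `S` is at most `q ^ η`, satisfy `|ξ - p / q| > q ^ (η - 2)`. -/
theorem result (ξ : ℝ) (halg : IsAlgebraic ℚ ξ) (hdeg : 3 ≤ (minpoly ℚ ξ).natDegree)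
    (F : MvPolynomial (Option Unit) ℤ) (hF : F.totalDegree ≠ 0) (S : Finset ℕ)
    (hS : ∀ p ∈ S, p.Prime) (k K : ℕ) :
    ∃ (η : ℝ) (N : ℕ), 0 < η ∧ ∀ q ≥ N, ∀ (p : ℤ) (v : Fin k → ℤ),
      (∀ i, |v i| ≤ (q : ℤ) ^ K ∧ |(v i : ℝ)| ≤ (q : ℝ) ^ η * sPart S (v i)) →
      eval (point p q) F = ∑ i, v i → (q : ℝ) ^ (η - 2) < |ξ - p / q| := by
  obtain ⟨η, N, hη, h⟩ := Pool.Agent.Q4.Opt.fewO S hS (fun _ => ξ) halg hdeg F hF k K
  refine ⟨η, N + 1, hη, fun q hq p v hv heq => ?_⟩
  by_contra hcon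
  have hq0 : (0 : ℝ) < q := by exact_mod_cast (by omega : 0 < q)
  refine h q (by omega) (fun _ => p) ?_ v hv heq
  have h5 : |ξ * q - p| = |ξ - p / q| * q := by
    rw [← abs_of_pos hq0, ← abs_mul, abs_of_pos hq0]
    congr 1
    field_simp
  have h6 : (q : ℝ) ^ η = (q : ℝ) ^ (η - 2) * (q * q) := by
    rw [Real.rpow_sub hq0, Real.rpow_two]
    field_simp
  change (q : ℝ) * |ξ * q - p| ≤ (q : ℝ) ^ η
  rw [h5, h6]
  have h7 : |ξ - p / q| * (q * q) ≤ (q : ℝ) ^ (η - 2) * (q * q) :=
    mul_le_mul_of_nonneg_right (not_lt.1 hcon) (by positivity)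
  linarith

end Pool.Agent.Results.MP_c307ca_nt.FewDigits
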