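import Mathlib
import Pool.Agent.Q4.Hall.NearPow

set_option autoImplicit false

/-!
# Lang's inequality for the rational numbers at which a polynomial is a power or nearly a power
-/

namespace Pool.Agent.Results.MP_c307ca_nt.NearPowers

open MvPolynomial

/-- the point `(q, p)`; the variable `none` is the one of `q`, the variable `some ()` the one
of `p` -/
def point (p : ℤ) (q : ℕ) : Option Unit → ℤ := fun o => o.elim (q : ℤ) (fun _ => p)

/-- the value at `(1, ξ)` of the homogeneous part of degree `m` -/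
noncomputable def atInfinity (ξ : ℝ) (m : ℕ) (F : MvPolynomial (Option Unit) ℤ) : ℝ :=
  aeval (fun o : Option Unit => (o.elim 1 (fun _ => ξ) : ℝ)) (homogeneousComponent m F)

/-- the polynomial at infinity `∑ᵢ (Pᵢ)_{(k - i) D + d}(1, ξ) Yⁱ` of `P = ∑ᵢ Pᵢ Yⁱ`, `k = deg P` -/
noncomputable def limitPoly (ξ : ℝ) (P : Polynomial (MvPolynomial (Option Unit) ℤ)) (D d : ℕ) :
    Polynomial ℝ :=
  ∑ i ∈ Finset.range (P.natDegree + 1),
    Polynomial.C (atInfinity ξ ((P.natDegree - i) * D + d) (P.coeff i)) * Polynomial.X ^ i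

lemma near {ξ η : ℝ} {q : ℕ} {p : ℤ} (hq : 1 ≤ q) (h : ¬ (q : ℝ) ^ (η - 2) < |ξ - p / q|) :
    (q : ℝ) * |ξ * q - p| ≤ (q : ℝ) ^ η := by
  have hq0 : (0 : ℝ) < q := by exact_mod_cast hq
  have h5 : |ξ * q - p| = |ξ - p / q| * q := by
    rw [← abs_of_pos hq0, ← abs_mul, abs_of_pos hq0]
    congr 1
    field_simp
  have h6 : (q : ℝ) ^ η = (q : ℝ) ^ (η - 2) * (q * q) := by
    rw [Real.rpow_sub hq0, Real.rpow_two]
    field_simp
  rw [h5, h6]
  have h7 : |ξ - p / q| * (q * q) ≤ (q : ℝ) ^ (η - 2) * (q * q) :=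
    mul_le_mul_of_nonneg_right (not_lt.1 h) (by positivity)
  linarith

/-- Let `ξ` be a real algebraic number of degree `r ≥ 3`.

(1) Let `P = ∑ᵢ Pᵢ Yⁱ` be a polynomial in `Y` of degree `k ≥ 1` with coefficients `Pᵢ ∈ ℤ[U, V]`,
`deg Pᵢ ≤ (k - i) D + d`, such that the homogeneous part of degree `d` of `P_k` does not vanish at
`(1, ξ)` and the polynomial at infinity is separable, and suppose that `P` has no root in `ℚ[U, V]`.
There are `η > 0` and `N` such that all integers `q ≥ N`, `p`, `y` with `P(q, p, y) = 0` satisfy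
`|ξ - p / q| > q ^ (η - 2)`.

(2) Let `F ∈ ℤ[U, V]` have degree at most `b E`, with homogeneous part of degree `b E` which does not
vanish at `(1, ξ)` and is not the `b`-th power of a polynomial over `ℚ`, and let
`κ < min((b - 1) E, (1 - 2/r) b E)`. There are `η > 0` and `N` such that all integers `q ≥ N` and `p`,
for which `|y ^ b - F(q, p)| ≤ q ^ κ` for some integer `y`, satisfy `|ξ - p / q| > q ^ (η - 2)`. -/
theorem result (ξ : ℝ) (halg : IsAlgebraic ℚ ξ) (h3 : 3 ≤ (minpoly ℚ ξ).natDegree) :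
    (∀ (P : Polynomial (MvPolynomial (Option Unit) ℤ)) (D d : ℕ), 0 < P.natDegree →
      atInfinity ξ d P.leadingCoeff ≠ 0 →
      (∀ i, (P.coeff i).totalDegree ≤ (P.natDegree - i) * D + d) →
      (limitPoly ξ P D d).Separable →
      (∀ G : MvPolynomial (Option Unit) ℚ,
        (P.map (MvPolynomial.map (Int.castRingHom ℚ))).eval G ≠ 0) →
      ∃ (η : ℝ) (N : ℕ), 0 < η ∧ ∀ q ≥ N, ∀ p y : ℤ,
        (P.map (eval (point p q))).eval y = 0 → (q : ℝ) ^ (η - 2) < |ξ - p / q|) ∧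
    (∀ (F : MvPolynomial (Option Unit) ℤ) (b E : ℕ), 0 < b → F.totalDegree ≤ b * E →
      atInfinity ξ (b * E) F ≠ 0 →
      (∀ G : MvPolynomial (Option Unit) ℚ,
        G ^ b ≠ homogeneousComponent (b * E) (MvPolynomial.map (Int.castRingHom ℚ) F)) →
      ∀ κ : ℝ, κ < (((b - 1) * E : ℕ) : ℝ) →
      κ < (1 - 2 / ((minpoly ℚ ξ).natDegree : ℝ)) * ((b * E : ℕ) : ℝ) →
      ∃ (η : ℝ) (N : ℕ), 0 < η ∧ ∀ q ≥ N, ∀ p y : ℤ,
        |(y : ℝ) ^ b - ((eval (point p q) F : ℤ) : ℝ)| ≤ (q : ℝ) ^ κ →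
        (q : ℝ) ^ (η - 2) < |ξ - p / q|) := by
  refine ⟨fun P D d hk hlead hdeg hsep hroot => ?_, fun F b E hb hF htop hpow κ h1 h2 => ?_⟩
  · obtain ⟨η, N, hη, h⟩ := Pool.Agent.Q4.Hall.cover_mainO (fun _ => ξ) halg h3 P hk hlead (by
      have h4 := hdeg P.natDegree
      rwa [Nat.sub_self, zero_mul, zero_add] at h4) hdeg hsep hroot
    refine ⟨η, max N 1, hη, fun q hq p y hy => ?_⟩
    by_contra hcon
    exact h q ((le_max_left _ _).trans hq) (fun _ => p)
      (near ((le_max_right _ _).trans hq) hcon) y hy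
  · obtain ⟨η, N, hη, h⟩ := Pool.Agent.Q4.Hall.near_power_mainO (fun _ => ξ) halg h3 hb hF htop hpow
      h1 h2
    refine ⟨η, max N 1, hη, fun q hq p y hy => ?_⟩
    by_contra hcon
    have h4 := h q ((le_max_left _ _).trans hq) (fun _ => p)
      (near ((le_max_right _ _).trans hq) hcon) y
    exact absurd hy (not_le.2 h4)

end Pool.Agent.Results.MP_c307ca_nt.NearPowers
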