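import Pool.Agent.Q50.SP.RepApprox

/-!
# Lang's inequality with a power saving for numerators and denominators with structure

Let `ξ` be a real algebraic irrational.

1. Let `S` be a finite set of primes, `K` a number of terms, `C` and `δ > 0`.  There is `c > 0` such
that `|ξ - p / q| > c q ^ (-δ) / ∏ max(|A j|, 1) ∏ max(|D j|, 1)` for all fractions with
`q = ∑ A j u j` and `p = ∑ D j v j` (`K` terms), where the `u j`, `v j` are composed of the primes in
`S`, and everything is at most `C q ^ C`.  So Lang's inequality holds, even with `q ^ (-2 + η)`,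
whenever the product of the coefficients is at most `q ^ (2 - 2 η)`.

2. Let `b, b' ≥ 2`, `k` and `δ > 0`.  There is `c > 0` such that
`|ξ - p / q| > c b ^ g b' ^ h q ^ (-2 - δ)` for all fractions such that the base `b` expansion of `q`
has `g` consecutive digits with at most `k` changes, and the base `b'` expansion of `|p|` has `h`
consecutive digits with at most `k` changes (`h = 0`: no condition on `p`).
-/

set_option autoImplicit false

namespace Pool.Agent.Results.MP_c307ca_nt.SumsAndWindows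

open Finset

/-- The number of changes of digit in the block of the `g` digits of the integer `n` in base `b` at
the places `s, s + 1, …, s + g - 1` (the place `i` is the one of `b ^ i`). -/
def changes (b n s g : ℕ) : ℕ :=
  ((Ico s (s + g - 1)).filter fun i => n / b ^ i % b ≠ n / b ^ (i + 1) % b).card

/-- The block of the places `s, …, s + g - 1` lies in the base `b` expansion of `n` (that is
`b ^ (s + g - 1) ≤ n`, the leading digit may be in the block) and it has at most `k` changes of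
digit.  For `g = 0` there is no condition. -/
def HasBlock (b n s g k : ℕ) : Prop := g = 0 ∨ (b ^ (s + g) ≤ b * n ∧ changes b n s g ≤ k)

lemma small (ξ : ℝ) (hirr : Irrational ξ) (N : ℕ) : ∃ c : ℝ, 0 < c ∧ ∀ q : ℕ, 1 ≤ q → q < N →
    ∀ p : ℤ, c < |ξ - p / q| := by
  induction N with
  | zero => exact ⟨1, one_pos, fun q _ h => absurd h (by omega)⟩
  | succ N ih =>
    obtain ⟨c, hc, h⟩ := ih
    rcases Nat.eq_zero_or_pos N with h0 | h0
    · exact ⟨c, hc, fun q h1 h2 => absurd h1 (by omega)⟩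
    have hN : (0 : ℝ) < N := by exact_mod_cast h0
    obtain ⟨d, hd⟩ : ∃ d : ℝ, d = |ξ * N - round (ξ * N)| := ⟨_, rfl⟩
    have hd0 : 0 < d := by
      rw [hd]
      refine abs_pos.2 fun h1 => ?_
      have h2 : Irrational (ξ * N) := by
        have := hirr.mul_natCast (m := N) (by omega)
        exact this
      exact h2.ne_int (round (ξ * N)) (sub_eq_zero.1 h1)
    refine ⟨min c (d / N / 2), lt_min hc (by positivity), fun q h1 h2 p => ?_⟩
    rcases Nat.lt_succ_iff_lt_or_eq.1 h2 with h3 | h3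
    · exact (min_le_left _ _).trans_lt (h q h1 h3 p)
    · subst h3
      refine (min_le_right _ _).trans_lt ?_
      have h4 : d ≤ |ξ * q - p| := by rw [hd]; exact round_le _ _
      have h5 : |ξ - p / q| = |ξ * q - p| / q := by
        rw [← abs_of_pos hN, ← abs_div, abs_of_pos hN]
        congr 1
        field_simp
      rw [h5]
      have h6 : d / q ≤ |ξ * q - p| / q := div_le_div_of_nonneg_right h4 hN.le
      have h7 : 0 < d / q := by positivity
      linarith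

lemma part1 (ξ : ℝ) (halg : IsAlgebraic ℚ ξ) (hirr : Irrational ξ) (S : Finset ℕ) (K : ℕ)
    (C δ : ℝ) (hδ : 0 < δ) : ∃ c : ℝ, 0 < c ∧
      ∀ (q : ℕ) (p : ℤ) (A D : Fin K → ℤ) (u v : Fin K → ℕ), 1 ≤ q →
        (q : ℤ) = ∑ j, A j * (u j : ℤ) → p = ∑ j, D j * (v j : ℤ) →
        (∀ j, u j ≠ 0 ∧ (u j).primeFactors ⊆ S ∧ (u j : ℝ) ≤ C * (q : ℝ) ^ C ∧
          |(A j : ℝ)| ≤ C * (q : ℝ) ^ C) →
        (∀ j, v j ≠ 0 ∧ (v j).primeFactors ⊆ S ∧ (v j : ℝ) ≤ C * (q : ℝ) ^ C ∧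
          |(D j : ℝ)| ≤ C * (q : ℝ) ^ C) →
        c * (q : ℝ) ^ (-δ) / ((∏ j, max |(A j : ℝ)| 1) * ∏ j, max |(D j : ℝ)| 1) <
          |ξ - p / q| := by
  obtain ⟨m, B, hB⟩ := Q50.SP.base_S S
  obtain ⟨C', hC'⟩ : ∃ C' : ℝ, C' = |C| + 1 := ⟨_, rfl⟩
  obtain ⟨Q₁, hQ₁⟩ := Q50.SP.rep_approx B ξ halg hirr K K C' δ hδ
  obtain ⟨N, hN⟩ := exists_nat_ge (max Q₁ (|C| + 2))
  obtain ⟨c₀, hc₀, hsm⟩ := small ξ hirr N
  refine ⟨min c₀ 1, lt_min hc₀ one_pos, fun q p A D u v hq1 hq hp hu hv => ?_⟩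
  have hqR : (1 : ℝ) ≤ q := by exact_mod_cast hq1
  have hq0 : (0 : ℝ) < q := by linarith
  have hPA : (1 : ℝ) ≤ ∏ j, max |(A j : ℝ)| 1 := by
    calc (1 : ℝ) = ∏ _j : Fin K, (1 : ℝ) := by simp
      _ ≤ _ := Finset.prod_le_prod (fun _ _ => zero_le_one) fun _ _ => le_max_right _ _
  have hPD : (1 : ℝ) ≤ ∏ j, max |(D j : ℝ)| 1 := by
    calc (1 : ℝ) = ∏ _j : Fin K, (1 : ℝ) := by simp
      _ ≤ _ := Finset.prod_le_prod (fun _ _ => zero_le_one) fun _ _ => le_max_right _ _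
  have hP : (1 : ℝ) ≤ (∏ j, max |(A j : ℝ)| 1) * ∏ j, max |(D j : ℝ)| 1 := by nlinarith
  have hqd : 0 < (q : ℝ) ^ (-δ) := Real.rpow_pos_of_pos hq0 _
  rcases lt_or_ge q N with h | h
  · refine lt_of_le_of_lt ?_ (hsm q hq1 h p)
    rw [div_le_iff₀ (by linarith)]
    have h1 : (q : ℝ) ^ (-δ) ≤ 1 := Real.rpow_le_one_of_one_le_of_nonpos hqR (by linarith)
    calc min c₀ 1 * (q : ℝ) ^ (-δ) ≤ c₀ * 1 :=
          mul_le_mul (min_le_left _ _) h1 hqd.le hc₀.le
      _ ≤ _ := mul_le_mul_of_nonneg_left hP hc₀.le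
  · have hqN : max Q₁ (|C| + 2) ≤ q := hN.trans (by exact_mod_cast h)
    have hqQ : Q₁ ≤ |((q : ℤ) : ℝ)| := by
      rw [Int.cast_natCast, abs_of_pos hq0]
      exact (le_max_left _ _).trans hqN
    have hqC : |C| + 2 ≤ q := (le_max_right _ _).trans hqN
    have hlq : 0 ≤ Real.log q := Real.log_nonneg hqR
    have hbig : ∀ x : ℝ, x ≤ C * (q : ℝ) ^ C → 1 ≤ x → Real.log x ≤ C' * Real.log q := by
      intro x hx hx1
      have h1 : x ≤ (q : ℝ) * (q : ℝ) ^ |C| := by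
        refine hx.trans ?_
        have h2 : C ≤ q := (le_abs_self C).trans (by linarith)
        have h3 : (q : ℝ) ^ C ≤ (q : ℝ) ^ |C| :=
          Real.rpow_le_rpow_of_exponent_le hqR (le_abs_self C)
        have h4 : 0 ≤ (q : ℝ) ^ C := (Real.rpow_pos_of_pos hq0 _).le
        exact mul_le_mul h2 h3 h4 hq0.le
      have h2 : Real.log x ≤ Real.log ((q : ℝ) * (q : ℝ) ^ |C|) :=
        Real.log_le_log (by linarith) h1
      rw [Real.log_mul hq0.ne' (Real.rpow_pos_of_pos hq0 _).ne', Real.log_rpow hq0] at h2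
      rw [hC']
      linarith
    have hmax : ∀ x : ℝ, |x| ≤ C * (q : ℝ) ^ C → Real.log (max |x| 1) ≤ C' * Real.log q := by
      intro x hx
      rcases le_total |x| 1 with h1 | h1
      · rw [max_eq_right h1, Real.log_one]
        have : 0 ≤ C' := by rw [hC']; positivity
        exact mul_nonneg this hlq
      · rw [max_eq_left h1]
        exact hbig _ hx h1
    choose gu hgu using fun j => hB (u j) (hu j).1 (hu j).2.1
    choose gv hgv using fun j => hB (v j) (hv j).1 (hv j).2.1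
    have e1 : ∀ j, (Q50.SP.un B (gu j) : ℤ) = u j := fun j => by exact_mod_cast hgu j
    have e2 : ∀ j, (Q50.SP.un B (gv j) : ℤ) = v j := fun j => by exact_mod_cast hgv j
    have key := hQ₁ (q : ℤ) p A gu D gv hqQ (by rw [hq]; simp_rw [e1]) (by rw [hp]; simp_rw [e2])
      ?_ ?_ ?_ ?_
    · have h1 : |ξ * ((q : ℤ) : ℝ) - p| = |ξ - p / q| * q := by
        rw [Int.cast_natCast]
        rw [← abs_of_pos hq0, ← abs_mul, abs_of_pos hq0]
        congr 1
        field_simp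
      have h2 : |((q : ℤ) : ℝ)| = q := by rw [Int.cast_natCast, abs_of_pos hq0]
      rw [h1, h2, ← Real.log_prod (fun _ _ => by positivity),
        ← Real.log_prod (fun _ _ => by positivity), sub_sub,
        ← Real.log_mul (by positivity) (by positivity), Real.exp_sub,
        Real.exp_log (by positivity)] at key
      have h3 : Real.exp ((1 - δ) * Real.log q) = q * (q : ℝ) ^ (-δ) := by
        rw [Real.rpow_def_of_pos hq0]
        nth_rewrite 2 [← Real.exp_log hq0]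
        rw [← Real.exp_add]
        congr 1
        ring
      rw [h3, mul_div_assoc, mul_comm |ξ - p / q| _] at key
      have h4 := lt_of_mul_lt_mul_left key hq0.le
      refine lt_of_le_of_lt ?_ h4
      apply div_le_div_of_nonneg_right _ (by linarith)
      calc min c₀ 1 * (q : ℝ) ^ (-δ) ≤ 1 * (q : ℝ) ^ (-δ) :=
            mul_le_mul_of_nonneg_right (min_le_right _ _) hqd.le
        _ = _ := one_mul _
    · intro j
      rw [Int.cast_natCast, abs_of_pos hq0]
      exact hmax _ (hu j).2.2.2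
    · intro j
      rw [Int.cast_natCast, abs_of_pos hq0]
      have : (Q50.SP.un B (gu j) : ℝ) = u j := by exact_mod_cast hgu j
      rw [this]
      exact hbig _ (hu j).2.2.1 (by exact_mod_cast Nat.one_le_iff_ne_zero.2 (hu j).1)
    · intro j
      rw [Int.cast_natCast, abs_of_pos hq0]
      exact hmax _ (hv j).2.2.2
    · intro j
      rw [Int.cast_natCast, abs_of_pos hq0]
      have : (Q50.SP.un B (gv j) : ℝ) = v j := by exact_mod_cast hgv j
      rw [this]
      exact hbig _ (hv j).2.2.1 (by exact_mod_cast Nat.one_le_iff_ne_zero.2 (hv j).1)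

lemma pfp (b e : ℕ) : (b ^ e).primeFactors ⊆ b.primeFactors := by
  rcases Nat.eq_zero_or_pos e with h | h
  · subst h
    simp
  · rw [Nat.primeFactors_pow b (by omega)]

/-- the representation of an integer with a block with few changes -/
lemma rep_int (b k : ℕ) (p : ℤ) (s g : ℕ) (hb : 2 ≤ b) (h : HasBlock b p.natAbs s g k) :
    ∃ (A : Fin (k + 3) → ℤ) (e : Fin (k + 3) → ℕ),
      (∀ j, (b : ℝ) ^ e j ≤ b * max |(p : ℝ)| 1) ∧
      ((b : ℤ) - 1) * p = ∑ j, A j * (b : ℤ) ^ e j ∧ (∀ j, |(A j : ℝ)| ≤ (b : ℝ) ^ 2 * |(p : ℝ)|) ∧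
      (∏ j, max |(A j : ℝ)| 1) * (b : ℝ) ^ g ≤ (b : ℝ) ^ (k + 5) * max |(p : ℝ)| 1 := by
  have hb1 : (1 : ℝ) ≤ b := by exact_mod_cast (by omega : 1 ≤ b)
  have hb0 : (0 : ℝ) < b := by linarith
  rcases eq_or_ne p 0 with hp | hp
  · subst hp
    have hg : g = 0 := by
      rcases h with h | h
      · exact h
      · have h1 := h.1
        rw [Int.natAbs_zero, mul_zero] at h1
        have : 0 < b ^ (s + g) := by positivity
        omega
    subst hg
    refine ⟨0, 0, fun j => ?_, ?_, ?_, ?_⟩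
    · simp only [Pi.zero_apply, pow_zero, Int.cast_zero, abs_zero]
      rw [max_eq_right zero_le_one, mul_one]
      exact hb1
    · simp
    · intro j
      simp
    · simp only [Pi.zero_apply, Int.cast_zero, abs_zero]
      rw [max_eq_right zero_le_one, Finset.prod_const_one, one_mul, mul_one]
      exact pow_le_pow_right₀ hb1 (by omega)
  · have hn : 1 ≤ p.natAbs := Int.natAbs_pos.2 hp
    have hnR : (p.natAbs : ℝ) = |(p : ℝ)| := by
      rw [Nat.cast_natAbs, Int.cast_abs]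
    have hpR : (1 : ℝ) ≤ |(p : ℝ)| := by rw [← hnR]; exact_mod_cast hn
    obtain ⟨s₁, hs₁, hk₁⟩ : ∃ s₁, b ^ (s₁ + g) ≤ b * p.natAbs ∧
        (Q50.SP.wch b p.natAbs s₁ g).card ≤ k := by
      rcases h with h | h
      · subst h
        refine ⟨0, ?_, ?_⟩
        · rw [add_zero, pow_zero]
          nlinarith
        · unfold Q50.SP.wch
          simp
      · exact ⟨s, h.1, h.2⟩
    obtain ⟨A, e, he, hs, hA, hP⟩ := Q50.SP.digit_rep b k p.natAbs s₁ g hb hs₁ hk₁
    rw [hnR] at hP hA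
    obtain ⟨ε, hε, hε1⟩ : ∃ ε : ℤ, p = ε * p.natAbs ∧ |ε| = 1 := by
      rcases le_total 0 p with h1 | h1
      · exact ⟨1, by rw [one_mul, Int.natAbs_of_nonneg h1], rfl⟩
      · exact ⟨-1, by rw [Int.ofNat_natAbs_of_nonpos h1]; ring, rfl⟩
    have hεR : |(ε : ℝ)| = 1 := by exact_mod_cast hε1
    have habs : ∀ j, |((ε * A j : ℤ) : ℝ)| = |(A j : ℝ)| := by
      intro j
      push_cast
      rw [abs_mul, hεR, one_mul]
    refine ⟨fun j => ε * A j, e, fun j => ?_, ?_, ?_, ?_⟩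
    · rw [max_eq_left hpR, ← hnR]
      calc (b : ℝ) ^ e j ≤ (b : ℝ) ^ (s₁ + g) := pow_le_pow_right₀ hb1 (he j)
        _ ≤ _ := by exact_mod_cast hs₁
    · calc ((b : ℤ) - 1) * p = ε * (((b : ℤ) - 1) * p.natAbs) := by
            conv_lhs => rw [hε]
            ring
        _ = _ := by
            rw [hs, Finset.mul_sum]
            exact Finset.sum_congr rfl fun j _ => by ring
    · intro j
      rw [habs]
      exact hA j
    · simp only [habs]
      rw [max_eq_left hpR]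
      exact hP

lemma part2 (ξ : ℝ) (halg : IsAlgebraic ℚ ξ) (hirr : Irrational ξ) (b b' k : ℕ) (δ : ℝ)
    (hb : 2 ≤ b) (hb' : 2 ≤ b') (hδ : 0 < δ) : ∃ c : ℝ, 0 < c ∧
      ∀ (q : ℕ) (p : ℤ) (s g s' h : ℕ), 1 ≤ q → HasBlock b q s g k →
        HasBlock b' p.natAbs s' h k →
        c * (b : ℝ) ^ g * (b' : ℝ) ^ h * (q : ℝ) ^ (-2 - δ) < |ξ - p / q| := by
  have hb1 : (1 : ℝ) ≤ b := by exact_mod_cast (by omega : 1 ≤ b)
  have hb1' : (1 : ℝ) ≤ b' := by exact_mod_cast (by omega : 1 ≤ b')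
  have hb2 : (2 : ℝ) ≤ b := by exact_mod_cast hb
  have hb2' : (2 : ℝ) ≤ b' := by exact_mod_cast hb'
  have hb0 : (0 : ℝ) < b := by linarith
  have hb0' : (0 : ℝ) < b' := by linarith
  obtain ⟨M, hM⟩ : ∃ M : ℝ, M = |ξ| + 1 := ⟨_, rfl⟩
  have hM1 : 1 ≤ M := by rw [hM]; linarith [abs_nonneg ξ]
  obtain ⟨C, hC⟩ : ∃ C : ℝ, C = (b : ℝ) ^ 3 * (b' : ℝ) ^ 3 * M := ⟨_, rfl⟩
  have hC1 : 1 ≤ C := by
    rw [hC]
    have h1 : (1 : ℝ) ≤ (b : ℝ) ^ 3 := one_le_pow₀ hb1
    have h2 : (1 : ℝ) ≤ (b' : ℝ) ^ 3 := one_le_pow₀ hb1'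
    nlinarith [mul_le_mul h1 h2 zero_le_one (by positivity)]
  obtain ⟨c, hc, hmain⟩ := part1 ξ halg hirr (b.primeFactors ∪ b'.primeFactors) (k + 3) C δ hδ
  obtain ⟨w, hw⟩ : ∃ w : ℝ, w = (((b : ℝ) * b') ^ (-δ)) / ((b : ℝ) ^ (2 * k + 8) *
    (b' : ℝ) ^ (2 * k + 8) * M) := ⟨_, rfl⟩
  have hw0 : 0 < w := by
    rw [hw]
    have : 0 < ((b : ℝ) * b') ^ (-δ) := Real.rpow_pos_of_pos (by positivity) _
    positivity
  refine ⟨min (c * w) (1 / (2 * b * b' * (M + 1))), lt_min (by positivity) (by positivity),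
    fun q p s g s' h hq1 hg hh => ?_⟩
  have hqR : (1 : ℝ) ≤ q := by exact_mod_cast hq1
  have hq0 : (0 : ℝ) < q := by linarith
  have hqz : HasBlock b ((q : ℤ).natAbs) s g k := by rw [Int.natAbs_natCast]; exact hg
  have hqabs : |(((q : ℤ) : ℤ) : ℝ)| = q := by rw [Int.cast_natCast, abs_of_pos hq0]
  have hsplit : (q : ℝ) ^ (-2 - δ) = (q : ℝ) ^ (-δ) / (q : ℝ) ^ 2 := by
    rw [sub_eq_add_neg, Real.rpow_add hq0, Real.rpow_neg hq0.le, Real.rpow_two]
    rw [div_eq_mul_inv, mul_comm]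
  have hqd : 0 < (q : ℝ) ^ (-δ) := Real.rpow_pos_of_pos hq0 _
  have hqd1 : (q : ℝ) ^ (-δ) ≤ 1 := Real.rpow_le_one_of_one_le_of_nonpos hqR (by linarith)
  have hbg : (b : ℝ) ^ g ≤ b * q := by
    rcases hg with h0 | h0
    · rw [h0, pow_zero]; nlinarith
    · have h1 : (b : ℝ) ^ (s + g) ≤ b * q := by exact_mod_cast h0.1
      exact (pow_le_pow_right₀ hb1 (by omega)).trans h1
  have hbh : (b' : ℝ) ^ h ≤ b' * max |(p : ℝ)| 1 := by
    have hnR : (p.natAbs : ℝ) = |(p : ℝ)| := by rw [Nat.cast_natAbs, Int.cast_abs]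
    rcases hh with h0 | h0
    · rw [h0, pow_zero]
      have : (1 : ℝ) ≤ max |(p : ℝ)| 1 := le_max_right _ _
      nlinarith
    · have h1 : (b' : ℝ) ^ (s' + h) ≤ b' * |(p : ℝ)| := by rw [← hnR]; exact_mod_cast h0.1
      refine (pow_le_pow_right₀ hb1' (by omega : h ≤ s' + h)).trans (h1.trans ?_)
      exact mul_le_mul_of_nonneg_left (le_max_left _ _) hb0'.le
  rcases le_or_gt 1 |ξ - p / q| with hbig | hsm
  · -- far away
    have h1 : max |(p : ℝ)| 1 ≤ (|ξ - p / q| + M) * q := by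
      apply max_le
      · have h2 : |(p : ℝ)| = |(p : ℝ) / q| * q := by
          rw [abs_div, abs_of_pos hq0, div_mul_cancel₀ _ hq0.ne']
        rw [h2]
        apply mul_le_mul_of_nonneg_right _ hq0.le
        have h3 : |(p : ℝ) / q| ≤ |ξ - p / q| + |ξ| := by
          have := abs_sub_abs_le_abs_sub ((p : ℝ) / q) ξ
          rw [abs_sub_comm] at this
          linarith
        rw [hM]
        linarith
      · nlinarith
    have h2 : (b : ℝ) ^ g * (b' : ℝ) ^ h ≤ (b * q) * (b' * ((|ξ - p / q| + M) * q)) :=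
      mul_le_mul hbg (hbh.trans (mul_le_mul_of_nonneg_left h1 hb0'.le)) (by positivity)
        (by positivity)
    have h3 : |ξ - p / q| + M ≤ (M + 1) * |ξ - p / q| := by nlinarith
    have h4 : (q : ℝ) ^ (-2 - δ) ≤ 1 / (q : ℝ) ^ 2 := by
      rw [hsplit]
      exact div_le_div_of_nonneg_right hqd1 (by positivity)
    calc min (c * w) (1 / (2 * b * b' * (M + 1))) * (b : ℝ) ^ g * (b' : ℝ) ^ h *
        (q : ℝ) ^ (-2 - δ)
        = min (c * w) (1 / (2 * b * b' * (M + 1))) * (((b : ℝ) ^ g * (b' : ℝ) ^ h) *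
        (q : ℝ) ^ (-2 - δ)) := by ring
      _ ≤ (1 / (2 * b * b' * (M + 1))) * (((b * q) * (b' * ((|ξ - p / q| + M) * q))) *
          (1 / (q : ℝ) ^ 2)) := by
          refine mul_le_mul (min_le_right _ _) ?_ ?_ (by positivity)
          · refine mul_le_mul h2 h4 (Real.rpow_pos_of_pos hq0 _).le (by positivity)
          · have : 0 < (q : ℝ) ^ (-2 - δ) := Real.rpow_pos_of_pos hq0 _
            positivity
      _ = (|ξ - p / q| + M) / (2 * (M + 1)) := by
          field_simp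
      _ ≤ ((M + 1) * |ξ - p / q|) / (2 * (M + 1)) :=
          div_le_div_of_nonneg_right h3 (by positivity)
      _ = |ξ - p / q| / 2 := by field_simp
      _ < |ξ - p / q| := by linarith
  · -- near
    have hpM : |(p : ℝ)| ≤ M * q := by
      have h2 : |(p : ℝ)| = |(p : ℝ) / q| * q := by
        rw [abs_div, abs_of_pos hq0, div_mul_cancel₀ _ hq0.ne']
      rw [h2]
      apply mul_le_mul_of_nonneg_right _ hq0.le
      have h3 : |(p : ℝ) / q| ≤ |ξ - p / q| + |ξ| := by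
        have := abs_sub_abs_le_abs_sub ((p : ℝ) / q) ξ
        rw [abs_sub_comm] at this
        linarith
      rw [hM]
      linarith
    have hpM' : max |(p : ℝ)| 1 ≤ M * q := max_le hpM (by nlinarith)
    obtain ⟨A, e, he, hs, hA, hPA⟩ := rep_int b k q s g hb hqz
    obtain ⟨D, f, hf, ht, hD, hPD⟩ := rep_int b' k p s' h hb' hh
    rw [hqabs] at hPA
    simp only [hqabs] at hA he
    rw [max_eq_left hqR] at hPA
    simp only [max_eq_left hqR] at he
    obtain ⟨Q, hQ⟩ : ∃ Q : ℕ, Q = (b - 1) * (b' - 1) * q := ⟨_, rfl⟩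
    have hbz : ((b - 1 : ℕ) : ℤ) = (b : ℤ) - 1 := by
      rw [Nat.cast_sub (by omega)]; rfl
    have hbz' : ((b' - 1 : ℕ) : ℤ) = (b' : ℤ) - 1 := by
      rw [Nat.cast_sub (by omega)]; rfl
    have hbr : ((b - 1 : ℕ) : ℝ) = (b : ℝ) - 1 := by
      rw [Nat.cast_sub (by omega), Nat.cast_one]
    have hbr' : ((b' - 1 : ℕ) : ℝ) = (b' : ℝ) - 1 := by
      rw [Nat.cast_sub (by omega), Nat.cast_one]
    have hQR : (Q : ℝ) = ((b : ℝ) - 1) * ((b' : ℝ) - 1) * q := by
      rw [hQ, Nat.cast_mul, Nat.cast_mul, hbr, hbr']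
    have hQz : (Q : ℤ) = ((b : ℤ) - 1) * ((b' : ℤ) - 1) * q := by
      rw [hQ, Nat.cast_mul, Nat.cast_mul, hbz, hbz']
    have hqQ : (q : ℝ) ≤ Q := by
      rw [hQR]
      have : (1 : ℝ) ≤ ((b : ℝ) - 1) * ((b' : ℝ) - 1) := by nlinarith
      nlinarith
    have hQup : (Q : ℝ) ≤ b * b' * q := by
      rw [hQR]
      apply mul_le_mul_of_nonneg_right _ hq0.le
      exact mul_le_mul (by linarith) (by linarith) (by linarith) hb0.le
    have hQ1 : 1 ≤ Q := by
      have : (1 : ℝ) ≤ Q := hqR.trans hqQ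
      exact_mod_cast this
    have hQ1R : (1 : ℝ) ≤ Q := by exact_mod_cast hQ1
    have hQ0 : (0 : ℝ) < Q := by linarith
    have hQC : (q : ℝ) ≤ (Q : ℝ) ^ C := by
      calc (q : ℝ) ≤ Q := hqQ
        _ = (Q : ℝ) ^ (1 : ℝ) := (Real.rpow_one _).symm
        _ ≤ _ := Real.rpow_le_rpow_of_exponent_le hQ1R hC1
    have hlift : ∀ x y : ℝ, 0 ≤ y → y ≤ C → x ≤ y * q → x ≤ C * (Q : ℝ) ^ C := by
      intro x y hy0 hy hx
      exact hx.trans (mul_le_mul hy hQC hq0.le (by linarith))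
    have hMpos : 0 < M := by linarith
    have hCb1 : (b : ℝ) ≤ C := by
      rw [hC]
      have h1 : (1 : ℝ) ≤ (b : ℝ) ^ 2 := one_le_pow₀ hb1
      have h2 : (1 : ℝ) ≤ (b' : ℝ) ^ 3 := one_le_pow₀ hb1'
      calc (b : ℝ) = b * 1 * 1 * 1 := by ring
        _ ≤ b * (b : ℝ) ^ 2 * (b' : ℝ) ^ 3 * M := by gcongr
        _ = _ := by ring
    have hCb2 : (b' : ℝ) * M ≤ C := by
      rw [hC]
      have h1 : (1 : ℝ) ≤ (b : ℝ) ^ 3 := one_le_pow₀ hb1
      have h2 : (1 : ℝ) ≤ (b' : ℝ) ^ 2 := one_le_pow₀ hb1'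
      calc (b' : ℝ) * M = 1 * 1 * (b' * M) := by ring
        _ ≤ (b : ℝ) ^ 3 * (b' : ℝ) ^ 2 * (b' * M) := by gcongr
        _ = _ := by ring
    have hCb3 : (b' : ℝ) * (b : ℝ) ^ 2 ≤ C := by
      rw [hC]
      have h2 : (1 : ℝ) ≤ (b' : ℝ) ^ 2 := one_le_pow₀ hb1'
      calc (b' : ℝ) * (b : ℝ) ^ 2 = 1 * 1 * 1 * ((b : ℝ) ^ 2 * b') := by ring
        _ ≤ b * (b' : ℝ) ^ 2 * M * ((b : ℝ) ^ 2 * b') := by gcongr
        _ = _ := by ring
    have hCb4 : (b : ℝ) * (b' : ℝ) ^ 2 * M ≤ C := by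
      rw [hC]
      have h1 : (1 : ℝ) ≤ (b : ℝ) ^ 2 := one_le_pow₀ hb1
      calc (b : ℝ) * (b' : ℝ) ^ 2 * M = 1 * 1 * (b * (b' : ℝ) ^ 2 * M) := by ring
        _ ≤ (b : ℝ) ^ 2 * b' * (b * (b' : ℝ) ^ 2 * M) := by gcongr
        _ = _ := by ring
    have hkey := hmain Q (((b : ℤ) - 1) * ((b' : ℤ) - 1) * p) (fun j => ((b' : ℤ) - 1) * A j)
      (fun j => ((b : ℤ) - 1) * D j) (fun j => b ^ e j) (fun j => b' ^ f j) hQ1 ?_ ?_ ?_ ?_
    · have hfrac : ((((b : ℤ) - 1) * ((b' : ℤ) - 1) * p : ℤ) : ℝ) / (Q : ℝ) = p / q := by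
        rw [hQR]
        push_cast
        have h1 : ((b : ℝ) - 1) ≠ 0 := by linarith
        have h2 : ((b' : ℝ) - 1) ≠ 0 := by linarith
        field_simp
      rw [hfrac] at hkey
      refine lt_of_le_of_lt ?_ hkey
      -- the products
      have hprodA : ∏ j : Fin (k + 3), max |((((b' : ℤ) - 1) * A j : ℤ) : ℝ)| 1 ≤
          (b' : ℝ) ^ (k + 3) * ∏ j, max |(A j : ℝ)| 1 := by
        calc ∏ j : Fin (k + 3), max |((((b' : ℤ) - 1) * A j : ℤ) : ℝ)| 1 ≤
            ∏ j : Fin (k + 3), ((b' : ℝ) * max |(A j : ℝ)| 1) := by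
              refine Finset.prod_le_prod (fun _ _ => by positivity) fun j _ => ?_
              push_cast
              rw [abs_mul, abs_of_nonneg (by linarith : (0 : ℝ) ≤ (b' : ℝ) - 1)]
              apply max_le
              · exact mul_le_mul (by linarith) (le_max_left _ _) (abs_nonneg _) hb0'.le
              · exact one_le_mul_of_one_le_of_one_le hb1' (le_max_right _ _)
          _ = _ := by rw [Finset.prod_mul_distrib]; simp
      have hprodD : ∏ j : Fin (k + 3), max |((((b : ℤ) - 1) * D j : ℤ) : ℝ)| 1 ≤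
          (b : ℝ) ^ (k + 3) * ∏ j, max |(D j : ℝ)| 1 := by
        calc ∏ j : Fin (k + 3), max |((((b : ℤ) - 1) * D j : ℤ) : ℝ)| 1 ≤
            ∏ j : Fin (k + 3), ((b : ℝ) * max |(D j : ℝ)| 1) := by
              refine Finset.prod_le_prod (fun _ _ => by positivity) fun j _ => ?_
              push_cast
              rw [abs_mul, abs_of_nonneg (by linarith : (0 : ℝ) ≤ (b : ℝ) - 1)]
              apply max_le
              · exact mul_le_mul (by linarith) (le_max_left _ _) (abs_nonneg _) hb0.le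
              · exact one_le_mul_of_one_le_of_one_le hb1 (le_max_right _ _)
          _ = _ := by rw [Finset.prod_mul_distrib]; simp
      obtain ⟨PA, hPAd⟩ : ∃ x : ℝ, x = ∏ j, max |(A j : ℝ)| 1 := ⟨_, rfl⟩
      obtain ⟨PD, hPDd⟩ : ∃ x : ℝ, x = ∏ j, max |(D j : ℝ)| 1 := ⟨_, rfl⟩
      rw [← hPAd] at hPA hprodA
      rw [← hPDd] at hPD hprodD
      have hPA0 : 0 < PA := by rw [hPAd]; exact Finset.prod_pos fun _ _ => by positivity
      have hPD0 : 0 < PD := by rw [hPDd]; exact Finset.prod_pos fun _ _ => by positivity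
      have hpos1 : 0 < ∏ j : Fin (k + 3), max |((((b' : ℤ) - 1) * A j : ℤ) : ℝ)| 1 :=
        Finset.prod_pos fun _ _ => by positivity
      have hpos2 : 0 < ∏ j : Fin (k + 3), max |((((b : ℤ) - 1) * D j : ℤ) : ℝ)| 1 :=
        Finset.prod_pos fun _ _ => by positivity
      rw [le_div_iff₀ (mul_pos hpos1 hpos2)]
      have hQd : ((b : ℝ) * b') ^ (-δ) * (q : ℝ) ^ (-δ) ≤ (Q : ℝ) ^ (-δ) := by
        rw [← Real.mul_rpow (by positivity) hq0.le]
        exact Real.rpow_le_rpow_of_nonpos hQ0 hQup (by linarith)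
      have hT : (∏ j : Fin (k + 3), max |((((b' : ℤ) - 1) * A j : ℤ) : ℝ)| 1) *
          (∏ j : Fin (k + 3), max |((((b : ℤ) - 1) * D j : ℤ) : ℝ)| 1) ≤
          ((b' : ℝ) ^ (k + 3) * PA) * ((b : ℝ) ^ (k + 3) * PD) :=
        mul_le_mul hprodA hprodD hpos2.le (by positivity)
      have hG : (PA * (b : ℝ) ^ g) * (PD * (b' : ℝ) ^ h) ≤
          ((b : ℝ) ^ (k + 5) * q) * ((b' : ℝ) ^ (k + 5) * (M * q)) := by
        refine mul_le_mul hPA (hPD.trans ?_) (by positivity) (by positivity)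
        exact mul_le_mul_of_nonneg_left hpM' (by positivity)
      have hr0 : 0 < (q : ℝ) ^ (-2 - δ) := Real.rpow_pos_of_pos hq0 _
      calc min (c * w) (1 / (2 * b * b' * (M + 1))) * (b : ℝ) ^ g * (b' : ℝ) ^ h *
          (q : ℝ) ^ (-2 - δ) *
          ((∏ j : Fin (k + 3), max |((((b' : ℤ) - 1) * A j : ℤ) : ℝ)| 1) *
          (∏ j : Fin (k + 3), max |((((b : ℤ) - 1) * D j : ℤ) : ℝ)| 1))
          ≤ (c * w) * (b : ℝ) ^ g * (b' : ℝ) ^ h * (q : ℝ) ^ (-2 - δ) *
          (((b' : ℝ) ^ (k + 3) * PA) * ((b : ℝ) ^ (k + 3) * PD)) := by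
            refine mul_le_mul ?_ hT (by positivity) (by positivity)
            refine mul_le_mul_of_nonneg_right ?_ hr0.le
            refine mul_le_mul_of_nonneg_right ?_ (by positivity)
            exact mul_le_mul_of_nonneg_right (min_le_left _ _) (by positivity)
        _ = (c * w * (q : ℝ) ^ (-2 - δ) * (b' : ℝ) ^ (k + 3) * (b : ℝ) ^ (k + 3)) *
            ((PA * (b : ℝ) ^ g) * (PD * (b' : ℝ) ^ h)) := by ring
        _ ≤ (c * w * (q : ℝ) ^ (-2 - δ) * (b' : ℝ) ^ (k + 3) * (b : ℝ) ^ (k + 3)) *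
            (((b : ℝ) ^ (k + 5) * q) * ((b' : ℝ) ^ (k + 5) * (M * q))) :=
            mul_le_mul_of_nonneg_left hG (by positivity)
        _ = c * (w * ((b : ℝ) ^ (2 * k + 8) * (b' : ℝ) ^ (2 * k + 8) * M)) *
            ((q : ℝ) ^ (-2 - δ) * (q : ℝ) ^ 2) := by ring
        _ = c * (((b : ℝ) * b') ^ (-δ) * (q : ℝ) ^ (-δ)) := by
            rw [hw, div_mul_cancel₀ _ (by positivity), hsplit,
              div_mul_cancel₀ _ (by positivity)]
            ring
        _ ≤ c * (Q : ℝ) ^ (-δ) := mul_le_mul_of_nonneg_left hQd hc.le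
    · rw [hQz]
      calc ((b : ℤ) - 1) * ((b' : ℤ) - 1) * q = ((b' : ℤ) - 1) * (((b : ℤ) - 1) * q) := by ring
        _ = _ := by
          rw [hs, Finset.mul_sum]
          refine Finset.sum_congr rfl fun j _ => ?_
          push_cast
          ring
    · calc ((b : ℤ) - 1) * ((b' : ℤ) - 1) * p = ((b : ℤ) - 1) * (((b' : ℤ) - 1) * p) := by ring
        _ = _ := by
          rw [ht, Finset.mul_sum]
          refine Finset.sum_congr rfl fun j _ => ?_
          push_cast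
          ring
    · intro j
      refine ⟨by positivity, ?_, ?_, ?_⟩
      · exact (pfp b (e j)).trans Finset.subset_union_left
      · push_cast
        exact hlift _ b hb0.le hCb1 (he j)
      · push_cast
        rw [abs_mul, abs_of_nonneg (by linarith : (0 : ℝ) ≤ (b' : ℝ) - 1)]
        refine hlift _ (b' * (b : ℝ) ^ 2) (by positivity) hCb3 ?_
        calc ((b' : ℝ) - 1) * |(A j : ℝ)| ≤ b' * ((b : ℝ) ^ 2 * q) :=
              mul_le_mul (by linarith) (hA j) (abs_nonneg _) hb0'.le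
          _ = _ := by ring
    · intro j
      refine ⟨by positivity, ?_, ?_, ?_⟩
      · exact (pfp b' (f j)).trans Finset.subset_union_right
      · push_cast
        refine hlift _ (b' * M) (by positivity) hCb2 ?_
        calc (b' : ℝ) ^ f j ≤ b' * max |(p : ℝ)| 1 := hf j
          _ ≤ b' * (M * q) := mul_le_mul_of_nonneg_left hpM' hb0'.le
          _ = _ := by ring
      · push_cast
        rw [abs_mul, abs_of_nonneg (by linarith : (0 : ℝ) ≤ (b : ℝ) - 1)]
        refine hlift _ (b * (b' : ℝ) ^ 2 * M) (by positivity) hCb4 ?_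
        calc ((b : ℝ) - 1) * |(D j : ℝ)| ≤ b * ((b' : ℝ) ^ 2 * |(p : ℝ)|) :=
              mul_le_mul (by linarith) (hD j) (abs_nonneg _) hb0.le
          _ ≤ b * ((b' : ℝ) ^ 2 * (M * q)) := by gcongr
          _ = _ := by ring

theorem result (ξ : ℝ) (halg : IsAlgebraic ℚ ξ) (hirr : Irrational ξ) :
    -- numerators and denominators that are short sums
    (∀ (S : Finset ℕ) (K : ℕ) (C δ : ℝ), 0 < δ → ∃ c : ℝ, 0 < c ∧
      ∀ (q : ℕ) (p : ℤ) (A D : Fin K → ℤ) (u v : Fin K → ℕ), 1 ≤ q →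
        (q : ℤ) = ∑ j, A j * (u j : ℤ) → p = ∑ j, D j * (v j : ℤ) →
        (∀ j, u j ≠ 0 ∧ (u j).primeFactors ⊆ S ∧ (u j : ℝ) ≤ C * (q : ℝ) ^ C ∧
          |(A j : ℝ)| ≤ C * (q : ℝ) ^ C) →
        (∀ j, v j ≠ 0 ∧ (v j).primeFactors ⊆ S ∧ (v j : ℝ) ≤ C * (q : ℝ) ^ C ∧
          |(D j : ℝ)| ≤ C * (q : ℝ) ^ C) →
        c * (q : ℝ) ^ (-δ) / ((∏ j, max |(A j : ℝ)| 1) * ∏ j, max |(D j : ℝ)| 1) <
          |ξ - p / q|) ∧
    -- numerators and denominators with a block of digits with few changes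
    (∀ (b b' k : ℕ) (δ : ℝ), 2 ≤ b → 2 ≤ b' → 0 < δ → ∃ c : ℝ, 0 < c ∧
      ∀ (q : ℕ) (p : ℤ) (s g s' h : ℕ), 1 ≤ q → HasBlock b q s g k →
        HasBlock b' p.natAbs s' h k →
        c * (b : ℝ) ^ g * (b' : ℝ) ^ h * (q : ℝ) ^ (-2 - δ) < |ξ - p / q|) :=
  ⟨fun S K C δ hδ => part1 ξ halg hirr S K C δ hδ,
    fun b b' k δ hb hb' hδ => part2 ξ halg hirr b b' k δ hb hb' hδ⟩

end Pool.Agent.Results.MP_c307ca_nt.SumsAndWindows
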